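import Mathlib

set_option autoImplicit false

/-!
# EM-1 Cube: edges of a family of finite sets which lie in small classes

`F` a family of subsets of a finite set `T` of naturals. The class of `D ∈ F` at `p` consists of
the members of `F` which agree with `D` on the numbers `≤ p`. The pairs `(D, p)` with `p ∉ D`,
`D ∪ {p} ∈ F`, whose class at `p` has fewer than `M` elements, number at most
`|F| log₂ (min |F| (2 M))`. Induction on `T`, removing the smallest element.
-/

namespace Pool.Agent.Helper79.EM

open Finset

/-- number of members of the family which agree with `D` on the numbers `≤ p` -/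
def nb (F : Finset (Finset ℕ)) (p : ℕ) (D : Finset ℕ) : ℕ :=
  (F.filter (fun D' => D'.filter (fun q => q ≤ p) = D.filter (fun q => q ≤ p))).card

/-- the edges `(D, p)` in direction `p` from `D` up to `insert p D` in small classes -/
def poor (F : Finset (Finset ℕ)) (T : Finset ℕ) (M : ℕ) : Finset (Finset ℕ × ℕ) :=
  (F ×ˢ T).filter (fun x => x.2 ∉ x.1 ∧ insert x.2 x.1 ∈ F ∧ nb F x.2 x.1 < M)

theorem mem_poor (F : Finset (Finset ℕ)) (T : Finset ℕ) (M : ℕ) (D : Finset ℕ) (p : ℕ) :
    (D, p) ∈ poor F T M ↔ D ∈ F ∧ p ∈ T ∧ p ∉ D ∧ insert p D ∈ F ∧ nb F p D < M := by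
  unfold poor
  rw [Finset.mem_filter, Finset.mem_product]
  tauto

private theorem log_ineq (n0 n1 M : ℕ) :
    n0 * Nat.log 2 (min n0 (2 * M)) + n1 * Nat.log 2 (min n1 (2 * M)) +
      (if n0 < M then min n0 n1 else 0) ≤ (n0 + n1) * Nat.log 2 (min (n0 + n1) (2 * M)) := by
  have h0 : Nat.log 2 (min n0 (2 * M)) ≤ Nat.log 2 (min (n0 + n1) (2 * M)) :=
    Nat.log_mono_right (min_le_min_right _ (Nat.le_add_right _ _))
  have h1 : Nat.log 2 (min n1 (2 * M)) ≤ Nat.log 2 (min (n0 + n1) (2 * M)) :=
    Nat.log_mono_right (min_le_min_right _ (Nat.le_add_left _ _))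
  have h0' := Nat.mul_le_mul_left n0 h0
  have h1' := Nat.mul_le_mul_left n1 h1
  rw [add_mul]
  split_ifs with h
  · rcases Nat.eq_zero_or_pos (min n0 n1) with hz | hz
    · rw [hz]
      omega
    · have hm : ∀ m : ℕ, 0 < m → m < M → 2 * m ≤ n0 + n1 →
          Nat.log 2 (min m (2 * M)) + 1 ≤ Nat.log 2 (min (n0 + n1) (2 * M)) := by
        intro m hm0 hmM hmn
        have e1 : Nat.log 2 (min m (2 * M)) + 1 = Nat.log 2 (2 * m) := by
          rw [min_eq_left (by omega), mul_comm, Nat.log_mul_base (by norm_num) (by omega)]
        rw [e1]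
        exact Nat.log_mono_right (le_min hmn (by omega))
      rcases le_total n0 n1 with hle | hle
      · rw [min_eq_left hle] at hz ⊢
        have := Nat.mul_le_mul_left n0 (hm n0 hz h (by omega))
        rw [mul_add, mul_one] at this
        omega
      · rw [min_eq_right hle] at hz ⊢
        have := Nat.mul_le_mul_left n1 (hm n1 hz (by omega) (by omega))
        rw [mul_add, mul_one] at this
        omega
  · omega

theorem poor_card (M : ℕ) (T : Finset ℕ) : ∀ F : Finset (Finset ℕ), (∀ D ∈ F, D ⊆ T) →
    (poor F T M).card ≤ F.card * Nat.log 2 (min F.card (2 * M)) := by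
  induction T using Finset.induction_on_min with
  | empty =>
    intro F _
    have : poor F ∅ M = ∅ := by
      unfold poor
      rw [Finset.product_empty, Finset.filter_empty]
    rw [this, Finset.card_empty]
    exact Nat.zero_le _
  | insert a s ha ih =>
    intro F hF
    have has : a ∉ s := fun h => lt_irrefl _ (ha a h)
    set F0 : Finset (Finset ℕ) := F.filter (fun D => a ∉ D) with hF0
    set F1 : Finset (Finset ℕ) := (F.filter (fun D => a ∈ D)).image (fun D => D.erase a) with hF1
    have hinj : Set.InjOn (fun D : Finset ℕ => D.erase a) (F.filter (fun D => a ∈ D) : Finset _) := by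
      intro D hD D' hD' h
      have h1 : a ∈ D := (Finset.mem_filter.1 (Finset.mem_coe.1 hD)).2
      have h2 : a ∈ D' := (Finset.mem_filter.1 (Finset.mem_coe.1 hD')).2
      have h3 : D.erase a = D'.erase a := h
      rw [← Finset.insert_erase h1, ← Finset.insert_erase h2, h3]
    have hcard : F.card = F0.card + F1.card := by
      rw [hF1, Finset.card_image_of_injOn hinj, hF0, add_comm]
      exact (Finset.card_filter_add_card_filter_not (fun D => a ∈ D)).symm
    have mem1 : ∀ E : Finset ℕ, E ∈ F1 ↔ a ∉ E ∧ insert a E ∈ F := by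
      intro E
      rw [hF1, Finset.mem_image]
      constructor
      · rintro ⟨D, hD, rfl⟩
        obtain ⟨hDF, haD⟩ := Finset.mem_filter.1 hD
        exact ⟨Finset.notMem_erase a D, by rw [Finset.insert_erase haD]; exact hDF⟩
      · rintro ⟨h1, h2⟩
        exact ⟨insert a E, Finset.mem_filter.2 ⟨h2, Finset.mem_insert_self _ _⟩,
          Finset.erase_insert h1⟩
    have mem0 : ∀ E : Finset ℕ, E ∈ F0 ↔ a ∉ E ∧ E ∈ F := by
      intro E
      rw [hF0, Finset.mem_filter, and_comm]
    have hs0 : ∀ D ∈ F0, D ⊆ s := by
      intro D hD q hq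
      obtain ⟨h1, h2⟩ := (mem0 D).1 hD
      rcases Finset.mem_insert.1 (hF D h2 hq) with h | h
      · exact absurd (h ▸ hq) h1
      · exact h
    have hs1 : ∀ D ∈ F1, D ⊆ s := by
      intro D hD q hq
      obtain ⟨h1, h2⟩ := (mem1 D).1 hD
      rcases Finset.mem_insert.1 (hF _ h2 (Finset.mem_insert_of_mem hq)) with h | h
      · exact absurd (h ▸ hq) h1
      · exact h
    -- neighbour numbers
    have nb0 : ∀ D ∈ F0, ∀ p ∈ s, nb F0 p D = nb F p D := by
      intro D hD p hp
      unfold nb
      congr 1
      ext D'
      simp only [Finset.mem_filter, mem0]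
      constructor
      · rintro ⟨⟨-, h1⟩, h2⟩
        exact ⟨h1, h2⟩
      · rintro ⟨h1, h2⟩
        refine ⟨⟨?_, h1⟩, h2⟩
        intro haD'
        have h3 : a ∈ D'.filter (fun q => q ≤ p) :=
          Finset.mem_filter.2 ⟨haD', (ha p hp).le⟩
        rw [h2] at h3
        exact ((mem0 D).1 hD).1 (Finset.mem_filter.1 h3).1
    have nb1 : ∀ D ∈ F1, ∀ p ∈ s, nb F1 p D = nb F p (insert a D) := by
      intro D hD p hp
      have hap : a ≤ p := (ha p hp).le
      unfold nb
      refine Finset.card_bij (fun E _ => insert a E) ?_ ?_ ?_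
      · intro E hE
        obtain ⟨hE1, hE2⟩ := Finset.mem_filter.1 hE
        rw [Finset.mem_filter]
        refine ⟨((mem1 E).1 hE1).2, ?_⟩
        rw [Finset.filter_insert, if_pos hap, Finset.filter_insert, if_pos hap, hE2]
      · intro E hE E' hE' h
        have h1 := ((mem1 E).1 (Finset.mem_filter.1 hE).1).1
        have h2 := ((mem1 E').1 (Finset.mem_filter.1 hE').1).1
        rw [← Finset.erase_insert h1, ← Finset.erase_insert h2, h]
      · intro E hE
        obtain ⟨hE1, hE2⟩ := Finset.mem_filter.1 hE
        have haE : a ∈ E := by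
          have h3 : a ∈ (insert a D).filter (fun q => q ≤ p) :=
            Finset.mem_filter.2 ⟨Finset.mem_insert_self _ _, hap⟩
          rw [← hE2] at h3
          exact (Finset.mem_filter.1 h3).1
        refine ⟨E.erase a, ?_, Finset.insert_erase haE⟩
        rw [Finset.mem_filter, mem1]
        refine ⟨⟨Finset.notMem_erase a E, by rw [Finset.insert_erase haE]; exact hE1⟩, ?_⟩
        have haD := ((mem1 D).1 hD).1
        have h4 : (E.filter (fun q => q ≤ p)).erase a =
            ((insert a D).filter (fun q => q ≤ p)).erase a := by rw [hE2]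
        rw [Finset.filter_insert, if_pos hap, Finset.erase_insert (by
          rw [Finset.mem_filter]
          exact fun h => haD h.1)] at h4
        rw [← h4]
        ext q
        rw [Finset.mem_filter, Finset.mem_erase, Finset.mem_erase, Finset.mem_filter]
        tauto
    -- decomposition
    set E0 : Finset (Finset ℕ × ℕ) := (poor F (insert a s) M).filter (fun x => x.2 = a) with hE0
    set E1 : Finset (Finset ℕ × ℕ) :=
      (poor F (insert a s) M).filter (fun x => x.2 ≠ a ∧ a ∉ x.1) with hE1
    set E2 : Finset (Finset ℕ × ℕ) :=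
      (poor F (insert a s) M).filter (fun x => x.2 ≠ a ∧ a ∈ x.1) with hE2
    have hsplit : poor F (insert a s) M ⊆ E0 ∪ (E1 ∪ E2) := by
      intro x hx
      rw [Finset.mem_union, Finset.mem_union, hE0, hE1, hE2, Finset.mem_filter, Finset.mem_filter,
        Finset.mem_filter]
      by_cases h1 : x.2 = a
      · exact Or.inl ⟨hx, h1⟩
      · by_cases h2 : a ∈ x.1
        · exact Or.inr (Or.inr ⟨hx, h1, h2⟩)
        · exact Or.inr (Or.inl ⟨hx, h1, h2⟩)
    have hc1 : E1.card ≤ (poor F0 s M).card := by
      apply Finset.card_le_card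
      rintro ⟨D, p⟩ hx
      obtain ⟨hx1, hpa, haD⟩ := Finset.mem_filter.1 hx
      rw [mem_poor] at hx1
      obtain ⟨hD, hp, hpD, hins, hnb⟩ := hx1
      have hps : p ∈ s := (Finset.mem_insert.1 hp).resolve_left hpa
      have hD0 : D ∈ F0 := (mem0 D).2 ⟨haD, hD⟩
      rw [mem_poor]
      refine ⟨hD0, hps, hpD, (mem0 _).2 ⟨?_, hins⟩, ?_⟩
      · rw [Finset.mem_insert]
        rintro (h | h)
        · exact hpa h.symm
        · exact haD h
      · rw [nb0 D hD0 p hps]
        exact hnb
    have hc2 : E2.card ≤ (poor F1 s M).card := by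
      refine Finset.card_le_card_of_injOn (fun x => (x.1.erase a, x.2)) ?_ ?_
      · rintro ⟨D, p⟩ hx
        obtain ⟨hx1, hpa, haD⟩ := Finset.mem_filter.1 (Finset.mem_coe.1 hx)
        rw [mem_poor] at hx1
        obtain ⟨hD, hp, hpD, hins, hnb⟩ := hx1
        have hps : p ∈ s := (Finset.mem_insert.1 hp).resolve_left hpa
        have hDe : D.erase a ∈ F1 := (mem1 _).2 ⟨Finset.notMem_erase a D, by
          rw [Finset.insert_erase haD]; exact hD⟩
        refine Finset.mem_coe.2 ((mem_poor _ _ _ _ _).2 ⟨hDe, hps, ?_, ?_, ?_⟩)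
        · rw [Finset.mem_erase]
          exact fun h => hpD h.2
        · rw [mem1]
          refine ⟨?_, ?_⟩
          · rw [Finset.mem_insert]
            rintro (h | h)
            · exact hpa h.symm
            · exact Finset.notMem_erase a D h
          · rw [Finset.insert_comm, Finset.insert_erase haD]
            exact hins
        · change nb F1 p (D.erase a) < M
          rw [nb1 _ hDe p hps, Finset.insert_erase haD]
          exact hnb
      · rintro ⟨D, p⟩ hx ⟨D', p'⟩ hx' h
        have haD : a ∈ D := (Finset.mem_filter.1 (Finset.mem_coe.1 hx)).2.2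
        have haD' : a ∈ D' := (Finset.mem_filter.1 (Finset.mem_coe.1 hx')).2.2
        have h1 : D.erase a = D'.erase a := (Prod.mk.inj h).1
        have h2 : p = p' := (Prod.mk.inj h).2
        have h3 : D = D' := by
          rw [← Finset.insert_erase haD, ← Finset.insert_erase haD', h1]
        rw [h3, h2]
    have hc0 : E0.card ≤ (if F0.card < M then min F0.card F1.card else 0) := by
      have hmem : ∀ x ∈ E0, x.1 ∈ F0 ∧ x.1 ∈ F1 ∧ F0.card < M ∧ x.2 = a := by
        rintro ⟨D, p⟩ hx
        obtain ⟨hx1, hpa⟩ := Finset.mem_filter.1 hx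
        have hpa' : p = a := hpa
        subst hpa'
        rw [mem_poor] at hx1
        obtain ⟨hD, hp, hpD, hins, hnb⟩ := hx1
        refine ⟨(mem0 _).2 ⟨hpD, hD⟩, (mem1 _).2 ⟨hpD, hins⟩, ?_, rfl⟩
        have : nb F p D = F0.card := by
          unfold nb
          rw [hF0]
          congr 1
          apply Finset.filter_congr
          intro D' hD'
          have hD2 : D.filter (fun q => q ≤ p) = ∅ := by
            rw [Finset.filter_eq_empty_iff]
            intro q hq hqp
            rcases Finset.mem_insert.1 (hF D hD hq) with h | h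
            · exact hpD (h ▸ hq)
            · exact absurd (ha q h) (by omega)
          rw [hD2, Finset.filter_eq_empty_iff]
          constructor
          · intro h hpD'
            exact h hpD' le_rfl
          · intro h q hq hqp
            rcases Finset.mem_insert.1 (hF D' hD' hq) with h' | h'
            · exact h (h' ▸ hq)
            · exact absurd (ha q h') (by omega)
        rw [← this]
        exact hnb
      split_ifs with hM
      · refine le_min ?_ ?_
        · refine Finset.card_le_card_of_injOn (fun x => x.1) (fun x hx => ?_) ?_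
          · exact (hmem x hx).1
          · intro x hx y hy h
            exact Prod.ext h (((hmem x hx).2.2.2).trans ((hmem y hy).2.2.2).symm)
        · refine Finset.card_le_card_of_injOn (fun x => x.1) (fun x hx => ?_) ?_
          · exact (hmem x hx).2.1
          · intro x hx y hy h
            exact Prod.ext h (((hmem x hx).2.2.2).trans ((hmem y hy).2.2.2).symm)
      · rw [Nat.le_zero, Finset.card_eq_zero, Finset.eq_empty_iff_forall_notMem]
        intro x hx
        exact hM (hmem x hx).2.2.1
    have h1 := Finset.card_le_card hsplit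
    have h2 := Finset.card_union_le E0 (E1 ∪ E2)
    have h3 := Finset.card_union_le E1 E2
    have h4 := ih F0 hs0
    have h5 := ih F1 hs1
    have h6 := log_ineq F0.card F1.card M
    rw [hcard]
    omega

end Pool.Agent.Helper79.EM
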