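import Pool.Agent.Helper79.EM.Cube
import Pool.Agent.Helper80.DR.Tops

set_option autoImplicit false

/-!
# EM-2 Edge: many pairs (b, p b) in A give common multipliers below and large classes above

The notation `Top`, `tops`, `low` is that of Helper80/DR/Defs.lean.
-/

namespace Pool.Agent.Helper79.EM

open Finset Pool.Agent.Helper80.DR

/-- parity choice for the pairs `(b, p b)` -/
theorem edge_choice (A : Finset ℤ) : ∃ σ : ℕ → ℕ, ∀ p : ℕ,
    (A.filter (fun b => (p : ℤ) * b ∈ A)).card ≤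
      2 * (A.filter (fun b => (p : ℤ) * b ∈ A ∧
        (padicValInt p ((p : ℤ) * b) + σ p) % 2 = 1)).card := by
  have hex : ∀ p : ℕ, ∃ s : ℕ, (A.filter (fun b => (p : ℤ) * b ∈ A)).card ≤
      2 * (A.filter (fun b => (p : ℤ) * b ∈ A ∧
        (padicValInt p ((p : ℤ) * b) + s) % 2 = 1)).card := by
    intro p
    have hsplit : (A.filter (fun b => (p : ℤ) * b ∈ A)).card ≤
        (A.filter (fun b => (p : ℤ) * b ∈ A ∧
          (padicValInt p ((p : ℤ) * b) + 0) % 2 = 1)).card +
        (A.filter (fun b => (p : ℤ) * b ∈ A ∧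
          (padicValInt p ((p : ℤ) * b) + 1) % 2 = 1)).card := by
      refine le_trans (Finset.card_le_card ?_) (Finset.card_union_le _ _)
      intro b hb
      rw [Finset.mem_filter] at hb
      rw [Finset.mem_union, Finset.mem_filter, Finset.mem_filter]
      rcases Nat.mod_two_eq_zero_or_one (padicValInt p ((p : ℤ) * b)) with h | h
      · exact Or.inr ⟨hb.1, hb.2, by omega⟩
      · exact Or.inl ⟨hb.1, hb.2, by omega⟩
    rcases le_total
      (A.filter (fun b => (p : ℤ) * b ∈ A ∧ (padicValInt p ((p : ℤ) * b) + 1) % 2 = 1)).card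
      (A.filter (fun b => (p : ℤ) * b ∈ A ∧ (padicValInt p ((p : ℤ) * b) + 0) % 2 = 1)).card
      with h | h
    · exact ⟨0, by omega⟩
    · exact ⟨1, by omega⟩
  choose σ hσ using hex
  exact ⟨σ, hσ⟩

/-- the directions in which there is an edge upwards from `b` -/
def up (σ : ℕ → ℕ) (A : Finset ℤ) (T : Finset ℕ) (b : ℤ) : Finset ℕ :=
  T.filter (fun p => (p : ℤ) * b ∈ A ∧ (padicValInt p ((p : ℤ) * b) + σ p) % 2 = 1)

/-- the class of `b` -/
noncomputable def cls (σ : ℕ → ℕ) (A : Finset ℤ) (P : Finset ℕ) (b : ℤ) : Finset ℤ :=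
  A.filter (fun a => low σ P a = low σ P b)

theorem tops_filter (σ : ℕ → ℕ) (T : Finset ℕ) (a : ℤ) (P : ℕ → Prop) [DecidablePred P] :
    tops σ (T.filter P) a = (tops σ T a).filter P := by
  ext p
  rw [mem_tops, Finset.mem_filter, Finset.mem_filter, mem_tops]
  tauto

theorem low_filter (σ : ℕ → ℕ) (T : Finset ℕ) (hT : ∀ p ∈ T, p.Prime) (a : ℤ) (ha : a ≠ 0)
    (p : ℕ) : low σ (T.filter (fun q => p < q)) a =
      (∏ q ∈ (tops σ T a).filter (fun q => q ≤ p), (q : ℤ)) * low σ T a := by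
  have hTp : ∀ q ∈ (tops σ T a).filter (fun q => p < q), q.Prime := fun q hq =>
    hT q ((mem_tops σ T a q).1 (Finset.mem_filter.1 hq).1).1
  have h1 := prod_tops_mul_low σ T hT a ha
  have h2 : (∏ q ∈ tops σ T a, (q : ℤ)) =
      (∏ q ∈ (tops σ T a).filter (fun q => p < q), (q : ℤ)) *
        ∏ q ∈ (tops σ T a).filter (fun q => q ≤ p), (q : ℤ) := by
    rw [← Finset.prod_filter_mul_prod_filter_not (tops σ T a) (fun q => p < q)]
    simp only [not_lt]
  unfold low
  rw [tops_filter]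
  have h3 : (∏ q ∈ (tops σ T a).filter (fun q => p < q), (q : ℤ)) ≠ 0 := prod_cast_ne _ hTp
  have h4 : a = (∏ q ∈ (tops σ T a).filter (fun q => p < q), (q : ℤ)) *
      ((∏ q ∈ (tops σ T a).filter (fun q => q ≤ p), (q : ℤ)) * low σ T a) := by
    rw [← mul_assoc, ← h2, h1]
  have h5 : a / (∏ q ∈ (tops σ T a).filter (fun q => p < q), (q : ℤ)) =
      (∏ q ∈ (tops σ T a).filter (fun q => q ≤ p), (q : ℤ)) * low σ T a := by
    exact Int.ediv_eq_of_eq_mul_right h3 h4
  rw [h5]
  rfl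

/-- an edge upwards: the top primes -/
theorem up_tops (σ : ℕ → ℕ) (T : Finset ℕ) (hT : ∀ p ∈ T, p.Prime) (A : Finset ℤ)
    (b : ℤ) (hb : b ≠ 0) (p : ℕ) (hp : p ∈ up σ A T b) :
    p ∈ T ∧ (p : ℤ) * b ∈ A ∧ p ∉ tops σ T b ∧ tops σ T ((p : ℤ) * b) = insert p (tops σ T b) ∧
      low σ T ((p : ℤ) * b) = low σ T b := by
  obtain ⟨hpT, hpA, hpar⟩ := Finset.mem_filter.1 hp
  have hpp := hT p hpT
  have hp0 : (p : ℤ) ≠ 0 := by exact_mod_cast hpp.ne_zero
  haveI : Fact p.Prime := ⟨hpp⟩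
  have hval : padicValInt p ((p : ℤ) * b) = 1 + padicValInt p b := by
    rw [padicValInt.mul hp0 hb, padicValInt.of_nat, padicValNat_self]
  have hpb : p ∈ tops σ T ((p : ℤ) * b) := by
    rw [mem_tops]
    exact ⟨hpT, Dvd.intro _ rfl, hpar⟩
  have hpnb : p ∉ tops σ T b := by
    rw [mem_tops]
    rintro ⟨-, -, h⟩
    rw [hval] at hpar
    omega
  have h1 := tops_div σ T hT ((p : ℤ) * b) (mul_ne_zero hp0 hb) {p}
    (Finset.singleton_subset_iff.2 hpb)
  rw [Finset.prod_singleton, Int.mul_ediv_cancel_left _ hp0] at h1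
  refine ⟨hpT, hpA, hpnb, ?_, h1.2.2.2.symm⟩
  rw [h1.2.2.1, Finset.insert_sdiff_self_of_mem hpb]

theorem eq_of_tops_low (σ : ℕ → ℕ) (T : Finset ℕ) (hT : ∀ p ∈ T, p.Prime) {a a' : ℤ}
    (ha : a ≠ 0) (ha' : a' ≠ 0) (h1 : tops σ T a = tops σ T a') (h2 : low σ T a = low σ T a') :
    a = a' := by
  rw [← prod_tops_mul_low σ T hT a ha, ← prod_tops_mul_low σ T hT a' ha', h1, h2]

/-- only few edges lie in small classes -/
theorem poor_edges (σ : ℕ → ℕ) (T : Finset ℕ) (hT : ∀ p ∈ T, p.Prime) (A : Finset ℤ)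
    (h0 : (0 : ℤ) ∉ A) (M : ℕ) :
    ∑ b ∈ A, ((up σ A T b).filter
      (fun p => (cls σ A (T.filter (fun q => p < q)) b).card < M)).card ≤
      A.card * Nat.log 2 (2 * M) := by
  have hne : ∀ a ∈ A, a ≠ 0 := fun a ha h => h0 (h ▸ ha)
  have hmaps : ∀ a ∈ A, low σ T a ∈ A.image (low σ T) := fun a ha =>
    Finset.mem_image_of_mem _ ha
  rw [← Finset.sum_fiberwise_of_maps_to hmaps]
  have hA : A.card = ∑ u ∈ A.image (low σ T), (A.filter (fun a => low σ T a = u)).card :=
    Finset.card_eq_sum_card_fiberwise hmaps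
  rw [hA, Finset.sum_mul]
  refine Finset.sum_le_sum fun u _ => ?_
  set Au : Finset ℤ := A.filter (fun a => low σ T a = u) with hAu
  set F : Finset (Finset ℕ) := Au.image (tops σ T) with hF
  have hAu1 : ∀ a ∈ Au, a ∈ A ∧ low σ T a = u := fun a ha => Finset.mem_filter.1 ha
  have hinj : Set.InjOn (tops σ T) (Au : Set ℤ) := by
    intro a ha a' ha' h
    obtain ⟨h1, h2⟩ := hAu1 a (Finset.mem_coe.1 ha)
    obtain ⟨h1', h2'⟩ := hAu1 a' (Finset.mem_coe.1 ha')
    exact eq_of_tops_low σ T hT (hne a h1) (hne a' h1') h (h2.trans h2'.symm)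
  have hFc : F.card = Au.card := by
    rw [hF, Finset.card_image_of_injOn hinj]
  have hFT : ∀ D ∈ F, D ⊆ T := by
    intro D hD
    obtain ⟨a, _, rfl⟩ := Finset.mem_image.1 hD
    intro p hp
    exact ((mem_tops σ T a p).1 hp).1
  have hnb : ∀ b ∈ Au, ∀ p : ℕ, nb F p (tops σ T b) ≤
      (cls σ A (T.filter (fun q => p < q)) b).card := by
    intro b hb p
    obtain ⟨hbA, hbu⟩ := hAu1 b hb
    have h1 : F.filter (fun D' => D'.filter (fun q => q ≤ p) =
        (tops σ T b).filter (fun q => q ≤ p)) ⊆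
        (Au.filter (fun a => (tops σ T a).filter (fun q => q ≤ p) =
          (tops σ T b).filter (fun q => q ≤ p))).image (tops σ T) := by
      intro D hD
      obtain ⟨hD1, hD2⟩ := Finset.mem_filter.1 hD
      obtain ⟨a, ha, rfl⟩ := Finset.mem_image.1 hD1
      exact Finset.mem_image_of_mem _ (Finset.mem_filter.2 ⟨ha, hD2⟩)
    have h2 : Au.filter (fun a => (tops σ T a).filter (fun q => q ≤ p) =
        (tops σ T b).filter (fun q => q ≤ p)) ⊆ cls σ A (T.filter (fun q => p < q)) b := by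
      intro a ha
      obtain ⟨ha1, ha2⟩ := Finset.mem_filter.1 ha
      obtain ⟨haA, hau⟩ := hAu1 a ha1
      unfold cls
      rw [Finset.mem_filter]
      refine ⟨haA, ?_⟩
      rw [low_filter σ T hT a (hne a haA), low_filter σ T hT b (hne b hbA), ha2, hau, hbu]
    unfold nb
    exact (Finset.card_le_card h1).trans (Finset.card_image_le.trans (Finset.card_le_card h2))
  rw [← Finset.card_sigma]
  have h1 : (Au.sigma (fun b => (up σ A T b).filter
      (fun p => (cls σ A (T.filter (fun q => p < q)) b).card < M))).card ≤ (poor F T M).card := by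
    refine Finset.card_le_card_of_injOn (fun x => (tops σ T x.1, x.2)) ?_ ?_
    · rintro ⟨b, p⟩ hx
      obtain ⟨hb, hp⟩ := Finset.mem_sigma.1 (Finset.mem_coe.1 hx)
      obtain ⟨hp1, hp2⟩ := Finset.mem_filter.1 hp
      obtain ⟨hbA, hbu⟩ := hAu1 b hb
      obtain ⟨h1, h2, h3, h4, h5⟩ := up_tops σ T hT A b (hne b hbA) p hp1
      refine Finset.mem_coe.2 ((mem_poor _ _ _ _ _).2
        ⟨Finset.mem_image_of_mem _ hb, h1, h3, ?_, lt_of_le_of_lt (hnb b hb p) hp2⟩)
      rw [← h4]
      exact Finset.mem_image_of_mem _ (Finset.mem_filter.2 ⟨h2, h5.trans hbu⟩)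
    · rintro ⟨b, p⟩ hx ⟨b', p'⟩ hx' h
      have hb := (Finset.mem_sigma.1 (Finset.mem_coe.1 hx)).1
      have hb' := (Finset.mem_sigma.1 (Finset.mem_coe.1 hx')).1
      have e1 : tops σ T b = tops σ T b' := (Prod.mk.inj h).1
      have e2 : p = p' := (Prod.mk.inj h).2
      have e3 : b = b' := hinj (Finset.mem_coe.2 hb) (Finset.mem_coe.2 hb') e1
      subst e2
      subst e3
      rfl
  have h2 := poor_card M T F hFT
  rw [hFc] at h2
  calc (Au.sigma (fun b => (up σ A T b).filter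
      (fun p => (cls σ A (T.filter (fun q => p < q)) b).card < M))).card
      ≤ Au.card * Nat.log 2 (min Au.card (2 * M)) := h1.trans h2
    _ ≤ Au.card * Nat.log 2 (2 * M) :=
        Nat.mul_le_mul_left _ (Nat.log_mono_right (min_le_right _ _))

/-- common multipliers `J` below `π`, with large classes above `π` -/
theorem exists_common (A : Finset ℤ) (T : Finset ℕ) (hT : ∀ p ∈ T, p.Prime) (h0 : (0 : ℤ) ∉ A)
    (hA : A.Nonempty) (κ : ℝ) (hκ : 0 < κ) (K M : ℕ) (hK : 1 ≤ K)
    (hedge : ∀ p ∈ T, κ * (A.card : ℝ) ≤ ((A.filter (fun b => (p : ℤ) * b ∈ A)).card : ℝ))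
    (hbig : ((Nat.log 2 (2 * M) + K : ℕ) : ℝ) ≤ κ / 4 * T.card) :
    ∃ σ : ℕ → ℕ, ∃ J ⊆ T, J.card = K ∧ ∃ π ∈ T, (∀ p ∈ J, p ≤ π) ∧ ∃ B1 ⊆ A, B1.Nonempty ∧
      κ / 4 * (A.card : ℝ) ≤ (T.card : ℝ) ^ K * (B1.card : ℝ) ∧
      (∀ b ∈ B1, ∀ p ∈ J, (p : ℤ) * b ∈ A) ∧
      M * (B1.image (low σ (T.filter (fun q => π < q)))).card ≤ A.card := by
  classical
  obtain ⟨σ, hσ⟩ := edge_choice A
  have hAc : (0 : ℝ) < A.card := by exact_mod_cast hA.card_pos
  have hTc : (0 : ℝ) < T.card := by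
    by_contra hneg
    have h1 : (1 : ℝ) ≤ ((Nat.log 2 (2 * M) + K : ℕ) : ℝ) := by
      exact_mod_cast (by omega : 1 ≤ Nat.log 2 (2 * M) + K)
    have h2 : (T.card : ℝ) ≤ 0 := not_lt.1 hneg
    have h3 : κ / 4 * (T.card : ℝ) ≤ 0 := mul_nonpos_of_nonneg_of_nonpos (by linarith) h2
    linarith
  set good : ℤ → Finset ℕ := fun b => (up σ A T b).filter
    (fun p => M ≤ (cls σ A (T.filter (fun q => p < q)) b).card) with hgood
  -- the number of edges
  have htot : κ / 2 * (T.card : ℝ) * A.card ≤ ∑ b ∈ A, ((up σ A T b).card : ℝ) := by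
    have e1 : ∑ b ∈ A, (up σ A T b).card = ∑ p ∈ T, (A.filter (fun b => (p : ℤ) * b ∈ A ∧
        (padicValInt p ((p : ℤ) * b) + σ p) % 2 = 1)).card := by
      unfold up
      simp only [Finset.card_filter]
      exact Finset.sum_comm
    have e2 : ∑ b ∈ A, ((up σ A T b).card : ℝ) = ∑ p ∈ T, (((A.filter (fun b => (p : ℤ) * b ∈ A ∧
        (padicValInt p ((p : ℤ) * b) + σ p) % 2 = 1)).card : ℕ) : ℝ) := by
      exact_mod_cast e1
    rw [e2]
    have e3 : ∀ p ∈ T, κ / 2 * (A.card : ℝ) ≤ (((A.filter (fun b => (p : ℤ) * b ∈ A ∧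
        (padicValInt p ((p : ℤ) * b) + σ p) % 2 = 1)).card : ℕ) : ℝ) := by
      intro p hp
      have h1 := hedge p hp
      have h2 : ((A.filter (fun b => (p : ℤ) * b ∈ A)).card : ℝ) ≤
          2 * (((A.filter (fun b => (p : ℤ) * b ∈ A ∧
            (padicValInt p ((p : ℤ) * b) + σ p) % 2 = 1)).card : ℕ) : ℝ) := by
        exact_mod_cast hσ p
      linarith
    calc κ / 2 * (T.card : ℝ) * A.card = ∑ _p ∈ T, κ / 2 * (A.card : ℝ) := by
          rw [Finset.sum_const, nsmul_eq_mul]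
          ring
      _ ≤ _ := Finset.sum_le_sum e3
  have hpoor := poor_edges σ T hT A h0 M
  have hsplit : ∀ b, (up σ A T b).card = (good b).card + ((up σ A T b).filter
      (fun p => (cls σ A (T.filter (fun q => p < q)) b).card < M)).card := by
    intro b
    rw [hgood, ← Finset.card_filter_add_card_filter_not
      (s := up σ A T b) (fun p => M ≤ (cls σ A (T.filter (fun q => p < q)) b).card)]
    simp only [not_le]
  have hgoodsum : κ / 2 * (T.card : ℝ) * A.card ≤
      (∑ b ∈ A, ((good b).card : ℝ)) + A.card * (Nat.log 2 (2 * M) : ℝ) := by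
    refine htot.trans ?_
    have e1 : ∑ b ∈ A, ((up σ A T b).card : ℝ) = (∑ b ∈ A, ((good b).card : ℝ)) +
        ((∑ b ∈ A, ((up σ A T b).filter
          (fun p => (cls σ A (T.filter (fun q => p < q)) b).card < M)).card : ℕ) : ℝ) := by
      push_cast
      rw [← Finset.sum_add_distrib]
      refine Finset.sum_congr rfl fun b _ => ?_
      rw [hsplit b]
      push_cast
      rfl
    rw [e1]
    have e2 : ((∑ b ∈ A, ((up σ A T b).filter
          (fun p => (cls σ A (T.filter (fun q => p < q)) b).card < M)).card : ℕ) : ℝ) ≤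
        A.card * (Nat.log 2 (2 * M) : ℝ) := by
      exact_mod_cast hpoor
    linarith
  have hgoodT : ∀ b, good b ⊆ T := fun b =>
    (Finset.filter_subset _ _).trans (Finset.filter_subset _ _)
  set B0 : Finset ℤ := A.filter (fun b => K ≤ (good b).card) with hB0
  have hup : ∑ b ∈ A, ((good b).card : ℝ) ≤ (B0.card : ℝ) * T.card + A.card * K := by
    have e1 : ∀ b ∈ A, ((good b).card : ℝ) ≤
        (if K ≤ (good b).card then (T.card : ℝ) else 0) + K := by
      intro b _
      split_ifs with h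
      · have h1 : ((good b).card : ℝ) ≤ T.card := by
          exact_mod_cast Finset.card_le_card (hgoodT b)
        have h2 : (0 : ℝ) ≤ K := Nat.cast_nonneg K
        linarith
      · have h1 : ((good b).card : ℝ) ≤ K := by
          exact_mod_cast (not_le.1 h).le
        linarith
    refine (Finset.sum_le_sum e1).trans (le_of_eq ?_)
    rw [Finset.sum_add_distrib, ← Finset.sum_filter, Finset.sum_const, Finset.sum_const,
      nsmul_eq_mul, nsmul_eq_mul]
  have hB0c : κ / 4 * (A.card : ℝ) ≤ B0.card := by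
    have e1 : κ / 2 * (T.card : ℝ) * A.card ≤
        (B0.card : ℝ) * T.card + A.card * (κ / 4 * T.card) := by
      have h1 : (A.card : ℝ) * ((Nat.log 2 (2 * M) + K : ℕ) : ℝ) ≤
          A.card * (κ / 4 * T.card) := mul_le_mul_of_nonneg_left hbig hAc.le
      push_cast at h1
      nlinarith [hgoodsum, hup, h1]
    have e2 : κ / 4 * (A.card : ℝ) * T.card ≤ (B0.card : ℝ) * T.card := by
      nlinarith [e1]
    exact le_of_mul_le_mul_right e2 hTc
  -- choose J
  have hex : ∀ b : ℤ, ∃ J : Finset ℕ, b ∈ B0 → J ∈ (good b).powersetCard K := by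
    intro b
    by_cases hb : b ∈ B0
    · have h1 : K ≤ (good b).card := (Finset.mem_filter.1 hb).2
      obtain ⟨J, hJ1, hJ2⟩ := Finset.exists_subset_card_eq h1
      exact ⟨J, fun _ => Finset.mem_powersetCard.2 ⟨hJ1, hJ2⟩⟩
    · exact ⟨∅, fun h => absurd h hb⟩
  choose jj hjj using hex
  have hB0ne : B0.Nonempty := by
    rw [← Finset.card_pos]
    have : (0 : ℝ) < B0.card := lt_of_lt_of_le (by positivity) hB0c
    exact_mod_cast this
  have hmaps : ∀ b ∈ B0, jj b ∈ T.powersetCard K := by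
    intro b hb
    obtain ⟨h1, h2⟩ := Finset.mem_powersetCard.1 (hjj b hb)
    exact Finset.mem_powersetCard.2 ⟨h1.trans (hgoodT b), h2⟩
  obtain ⟨b0, hb0⟩ := hB0ne
  have hTne : (T.powersetCard K).Nonempty := ⟨jj b0, hmaps b0 hb0⟩
  have hpig : ∃ J ∈ T.powersetCard K,
      B0.card ≤ (T.powersetCard K).card * (B0.filter (fun b => jj b = J)).card := by
    by_contra hcon
    push Not at hcon
    have hsum : B0.card = ∑ J ∈ T.powersetCard K, (B0.filter (fun b => jj b = J)).card :=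
      Finset.card_eq_sum_card_fiberwise hmaps
    have h1 : ∑ J ∈ T.powersetCard K,
        (T.powersetCard K).card * (B0.filter (fun b => jj b = J)).card <
        ∑ _J ∈ T.powersetCard K, B0.card := Finset.sum_lt_sum_of_nonempty hTne hcon
    rw [← Finset.mul_sum, ← hsum, Finset.sum_const, smul_eq_mul] at h1
    exact lt_irrefl _ h1
  obtain ⟨J, hJ, hJpig⟩ := hpig
  obtain ⟨hJT, hJK⟩ := Finset.mem_powersetCard.1 hJ
  set B1 : Finset ℤ := B0.filter (fun b => jj b = J) with hB1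
  have hJne : J.Nonempty := by
    rw [← Finset.card_pos]
    omega
  have hB1pos : 0 < B1.card := by
    rcases Nat.eq_zero_or_pos B1.card with h | h
    · rw [h, mul_zero] at hJpig
      have := Finset.card_pos.2 ⟨b0, hb0⟩
      omega
    · exact h
  have hB1mem : ∀ b ∈ B1, b ∈ A ∧ J ⊆ good b := by
    intro b hb
    obtain ⟨h1, h2⟩ := Finset.mem_filter.1 hb
    refine ⟨(Finset.mem_filter.1 h1).1, ?_⟩
    rw [← h2]
    exact (Finset.mem_powersetCard.1 (hjj b h1)).1
  refine ⟨σ, J, hJT, hJK, J.max' hJne, hJT (J.max'_mem hJne), fun p hp => J.le_max' p hp, B1,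
    fun b hb => (hB1mem b hb).1, Finset.card_pos.1 hB1pos, ?_, ?_, ?_⟩
  · have e1 : (B0.card : ℝ) ≤ ((T.powersetCard K).card : ℝ) * B1.card := by
      exact_mod_cast hJpig
    have e2 : ((T.powersetCard K).card : ℝ) ≤ (T.card : ℝ) ^ K := by
      rw [Finset.card_powersetCard]
      exact_mod_cast Nat.choose_le_pow T.card K
    calc κ / 4 * (A.card : ℝ) ≤ B0.card := hB0c
      _ ≤ _ := e1
      _ ≤ _ := mul_le_mul_of_nonneg_right e2 (Nat.cast_nonneg _)
  · intro b hb p hp
    have h1 := (hB1mem b hb).2 hp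
    exact (Finset.mem_filter.1 (Finset.mem_filter.1 h1).1).2.1
  · set P : Finset ℕ := T.filter (fun q => J.max' hJne < q) with hP
    set I : Finset ℤ := B1.image (low σ P) with hI
    have h1 : ∀ u ∈ I, M ≤ (A.filter (fun a => low σ P a = u)).card := by
      intro u hu
      obtain ⟨b, hb, rfl⟩ := Finset.mem_image.1 hu
      have h2 := (hB1mem b hb).2 (J.max'_mem hJne)
      exact (Finset.mem_filter.1 h2).2
    have h3 : ∑ u ∈ I, (A.filter (fun a => low σ P a = u)).card ≤ A.card := by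
      rw [← Finset.card_biUnion]
      · apply Finset.card_le_card
        intro a ha
        obtain ⟨u, _, hu⟩ := Finset.mem_biUnion.1 ha
        exact (Finset.mem_filter.1 hu).1
      · intro u _ v _ huv
        rw [Function.onFun, Finset.disjoint_left]
        intro a ha ha'
        exact huv ((Finset.mem_filter.1 ha).2.symm.trans (Finset.mem_filter.1 ha').2)
    calc M * I.card = ∑ _u ∈ I, M := by rw [Finset.sum_const, smul_eq_mul, mul_comm]
      _ ≤ ∑ u ∈ I, (A.filter (fun a => low σ P a = u)).card := Finset.sum_le_sum h1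
      _ ≤ A.card := h3

end Pool.Agent.Helper79.EM
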