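import Pool.Agent.Helper79.EM.StructE
import Pool.Agent.Helper80.DR.Growth

set_option autoImplicit false

/-!
# EM-4 EdgeSums: Theorem E

If at least `σ log |A|` primes `p` satisfy `|A ∩ pA| ≥ κ|A|` then `|kA| ≥ c|A|^(k-ε)`.
-/

namespace Pool.Agent.Helper79.EM

open Finset Pool.Agent.Helper80.DR

theorem edge_sums (k : ℕ) (ε κ σ : ℝ) (hε : 0 < ε) (hκ : 0 < κ) (hσ : 0 < σ) :
    ∃ c : ℝ, 0 < c ∧ ∀ (A : Finset ℤ) (T : Finset ℕ), A.Nonempty → (0 : ℤ) ∉ A →
      (∀ p ∈ T, p.Prime) → σ * Real.log (A.card : ℝ) ≤ (T.card : ℝ) →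
      (∀ p ∈ T, κ * (A.card : ℝ) ≤ ((A.filter (fun b => (p : ℤ) * b ∈ A)).card : ℝ)) →
      c * (A.card : ℝ) ^ ((k : ℝ) - ε) ≤
        (((Fintype.piFinset (fun _ : Fin k => A)).image
              (fun f : Fin k → ℤ => ∑ i, f i)).card : ℝ) := by
  obtain ⟨ε1, hε1, hgrow⟩ := growth k ε hε
  obtain ⟨c3, hc3⟩ : ∃ c3 : ℝ, c3 = min (σ / 2) (ε1 / 10) := ⟨_, rfl⟩
  have hc3pos : 0 < c3 := by
    rw [hc3]
    exact lt_min (by linarith) (by linarith)
  have hc3a : c3 ≤ σ / 2 := by rw [hc3]; exact min_le_left _ _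
  have hc3b : c3 ≤ ε1 / 10 := by rw [hc3]; exact min_le_right _ _
  obtain ⟨δ', hδ', hstr⟩ := struct_of_edges (min κ 1) ε1 c3 (lt_min hκ one_pos)
    (min_le_right _ _) hε1 hc3pos hc3b
  obtain ⟨K, hK, hK2⟩ := hgrow δ' hδ'
  obtain ⟨N0, hN0⟩ := hstr K hK
  obtain ⟨N1, hN1⟩ : ∃ N1 : ℝ, N1 = max N0 (1 / c3) := ⟨_, rfl⟩
  refine ⟨min 1 (Real.exp (-(k * N1))), lt_min one_pos (Real.exp_pos _), ?_⟩
  intro A T hA h0 hTp hTc hedge
  have hA1 : (1 : ℝ) ≤ A.card := by exact_mod_cast hA.card_pos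
  have hA0 : (0 : ℝ) < A.card := by linarith
  have hpowpos : (0 : ℝ) < (A.card : ℝ) ^ ((k : ℝ) - ε) := Real.rpow_pos_of_pos hA0 _
  rcases le_total N1 (Real.log (A.card : ℝ)) with h | h
  · have hL1 : 1 / c3 ≤ Real.log (A.card : ℝ) := (le_trans (by rw [hN1]; exact le_max_right _ _) h)
    have hL2 : N0 ≤ Real.log (A.card : ℝ) := (le_trans (by rw [hN1]; exact le_max_left _ _) h)
    have hL3 : 1 ≤ c3 * Real.log (A.card : ℝ) := by
      rw [div_le_iff₀ hc3pos] at hL1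
      linarith
    have hL4 : 0 < Real.log (A.card : ℝ) := by
      have : 0 < 1 / c3 := by positivity
      linarith
    have hn : ⌈c3 * Real.log (A.card : ℝ)⌉₊ ≤ T.card := by
      rw [Nat.ceil_le]
      have h1 : c3 * Real.log (A.card : ℝ) ≤ σ / 2 * Real.log (A.card : ℝ) :=
        mul_le_mul_of_nonneg_right hc3a hL4.le
      have h2 : 0 < σ * Real.log (A.card : ℝ) := by positivity
      linarith
    obtain ⟨T', hT', hT'c⟩ := Finset.exists_subset_card_eq hn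
    have hup : (T'.card : ℝ) ≤ 2 * c3 * Real.log (A.card : ℝ) := by
      rw [hT'c]
      have := (Nat.ceil_lt_add_one (by linarith : 0 ≤ c3 * Real.log (A.card : ℝ))).le
      linarith
    have hlow : c3 * Real.log (A.card : ℝ) ≤ (T'.card : ℝ) := by
      rw [hT'c]
      exact Nat.le_ceil _
    have hS := hN0 A T' h0 hA hL2 (fun p hp => hTp p (hT' hp)) hlow hup (fun p hp =>
      le_trans (mul_le_mul_of_nonneg_right (min_le_left _ _) hA0.le) (hedge p (hT' hp)))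
    have h1 := hK2 A hA hS
    calc min 1 (Real.exp (-(k * N1))) * (A.card : ℝ) ^ ((k : ℝ) - ε)
        ≤ 1 * (A.card : ℝ) ^ ((k : ℝ) - ε) :=
          mul_le_mul_of_nonneg_right (min_le_left _ _) hpowpos.le
      _ = (A.card : ℝ) ^ ((k : ℝ) - ε) := one_mul _
      _ ≤ _ := h1
  · have hne : ((Fintype.piFinset (fun _ : Fin k => A)).image
        (fun f : Fin k → ℤ => ∑ i, f i)).Nonempty := by
      rw [Finset.image_nonempty]
      obtain ⟨a, ha⟩ := hA
      exact ⟨fun _ => a, Fintype.mem_piFinset.2 fun _ => ha⟩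
    have h1 : (1 : ℝ) ≤ (((Fintype.piFinset (fun _ : Fin k => A)).image
        (fun f : Fin k → ℤ => ∑ i, f i)).card : ℝ) := by
      exact_mod_cast hne.card_pos
    refine le_trans ?_ h1
    have h2 : (A.card : ℝ) ^ ((k : ℝ) - ε) ≤ Real.exp (k * N1) := by
      calc (A.card : ℝ) ^ ((k : ℝ) - ε) ≤ (A.card : ℝ) ^ (k : ℝ) :=
            Real.rpow_le_rpow_of_exponent_le hA1 (by linarith)
        _ = Real.exp (Real.log (A.card : ℝ) * k) := Real.rpow_def_of_pos hA0 _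
        _ ≤ Real.exp (k * N1) := by
            apply Real.exp_le_exp.2
            rw [mul_comm]
            exact mul_le_mul_of_nonneg_left h (Nat.cast_nonneg _)
    calc min 1 (Real.exp (-(k * N1))) * (A.card : ℝ) ^ ((k : ℝ) - ε)
        ≤ Real.exp (-(k * N1)) * Real.exp (k * N1) :=
          mul_le_mul (min_le_right _ _) h2 hpowpos.le (Real.exp_pos _).le
      _ = 1 := by rw [← Real.exp_add, neg_add_cancel, Real.exp_zero]

/-- the same with the hypothesis on the elements of `A` of the form `p b`, `b ∈ A` -/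
theorem edge_sums' (k : ℕ) (ε κ σ : ℝ) (hε : 0 < ε) (hκ : 0 < κ) (hσ : 0 < σ) :
    ∃ c : ℝ, 0 < c ∧ ∀ (A : Finset ℤ) (T : Finset ℕ), A.Nonempty → (0 : ℤ) ∉ A →
      (∀ p ∈ T, p.Prime) → σ * Real.log (A.card : ℝ) ≤ (T.card : ℝ) →
      (∀ p ∈ T, κ * (A.card : ℝ) ≤ ((A.filter (fun a => ∃ b ∈ A, a = (p : ℤ) * b)).card : ℝ)) →
      c * (A.card : ℝ) ^ ((k : ℝ) - ε) ≤
        (((Fintype.piFinset (fun _ : Fin k => A)).image
              (fun f : Fin k → ℤ => ∑ i, f i)).card : ℝ) := by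
  obtain ⟨c, hc, h⟩ := edge_sums k ε κ σ hε hκ hσ
  refine ⟨c, hc, fun A T hA h0 hTp hTc hedge => h A T hA h0 hTp hTc fun p hp => ?_⟩
  refine (hedge p hp).trans ?_
  have hle : (A.filter (fun a => ∃ b ∈ A, a = (p : ℤ) * b)).card ≤
      (A.filter (fun b => (p : ℤ) * b ∈ A)).card := by
    have hsub : A.filter (fun a => ∃ b ∈ A, a = (p : ℤ) * b) ⊆
        (A.filter (fun b => (p : ℤ) * b ∈ A)).image (fun b => (p : ℤ) * b) := by
      intro a ha
      obtain ⟨haA, b, hb, rfl⟩ := Finset.mem_filter.1 ha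
      exact Finset.mem_image_of_mem _ (Finset.mem_filter.2 ⟨hb, haA⟩)
    exact (Finset.card_le_card hsub).trans Finset.card_image_le
  exact_mod_cast hle

end Pool.Agent.Helper79.EM
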