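import Pool.Agent.Helper79.EM.StructE
import Pool.Agent.Helper80.DR.Core

set_option autoImplicit false

/-!
# EM-5 GrowthX: Theorem E for the sets `X + kA`

If at least `σ log |A|` primes `p` satisfy `|A ∩ pA| ≥ κ|A|` and `|X| ≤ |A|^b` then
`|X + kA| ≥ c|X||A|^(k-ε)`. The induction is that of `Helper80/DR/Growth.lean`.
-/

namespace Pool.Agent.Helper79.EM

open Finset Pool.Agent.Helper80.DR

/-- the number of elements of `X + kA` -/
noncomputable def numX (X A : Finset ℤ) (k : ℕ) : ℝ :=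
  (((X ×ˢ Fintype.piFinset (fun _ : Fin k => A)).image
    (fun f : ℤ × (Fin k → ℤ) => f.1 + ∑ i, f.2 i)).card : ℝ)

theorem numX_nonneg (X A : Finset ℤ) (k : ℕ) : 0 ≤ numX X A k := by
  unfold numX
  positivity

theorem card_le_numX (X A : Finset ℤ) (k : ℕ) (hA : A.Nonempty) : (X.card : ℝ) ≤ numX X A k := by
  obtain ⟨a, ha⟩ := hA
  unfold numX
  have hsub : X.image (fun x => x + ∑ _i : Fin k, a) ⊆
      (X ×ˢ Fintype.piFinset (fun _ : Fin k => A)).image
        (fun f : ℤ × (Fin k → ℤ) => f.1 + ∑ i, f.2 i) := by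
    intro w hw
    obtain ⟨x, hx, rfl⟩ := Finset.mem_image.1 hw
    rw [Finset.mem_image]
    refine ⟨(x, fun _ => a), ?_, rfl⟩
    rw [Finset.mem_product, Fintype.mem_piFinset]
    exact ⟨hx, fun _ => ha⟩
  have h1 := Finset.card_le_card hsub
  rw [Finset.card_image_of_injective _ (add_left_injective _)] at h1
  exact_mod_cast h1

theorem growthX (k : ℕ) (b ε : ℝ) (hb : 0 ≤ b) (hε : 0 < ε) : ∃ ε1 : ℝ, 0 < ε1 ∧
    ∀ δ : ℝ, 0 < δ → ∃ K : ℕ, 0 < K ∧ ∀ A X : Finset ℤ, A.Nonempty → X.Nonempty →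
      (X.card : ℝ) ≤ (A.card : ℝ) ^ b → Struct A K ε1 δ →
      (X.card : ℝ) * (A.card : ℝ) ^ ((k : ℝ) - ε) ≤ numX X A k := by
  set ε2 : ℝ := ε / ((k : ℝ) + 1) with hε2
  have hk1 : (0 : ℝ) < (k : ℝ) + 1 := by positivity
  have hkb1 : (0 : ℝ) < (k : ℝ) + b + 1 := by positivity
  have hk3 : (0 : ℝ) < (k : ℝ) + b + 3 := by positivity
  have hε2pos : 0 < ε2 := by positivity
  have hkε2 : (k : ℝ) * ε2 ≤ ε := by
    rw [hε2, mul_div_assoc', div_le_iff₀ hk1]
    nlinarith
  set ε1 : ℝ := min (ε2 / ((k : ℝ) + b + 3)) 1 with hε1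
  have hε1pos : 0 < ε1 := lt_min (by positivity) one_pos
  have hε1le : ε1 ≤ 1 := min_le_right _ _
  have hε1ε2 : ε1 * ((k : ℝ) + b + 3) ≤ ε2 := by
    have h1 : ε1 ≤ ε2 / ((k : ℝ) + b + 3) := min_le_left _ _
    rwa [le_div_iff₀ hk3] at h1
  refine ⟨ε1, hε1pos, fun δ hδ => ?_⟩
  obtain ⟨K, hK, hcore⟩ := core ε1 (δ / ((k : ℝ) + b + 1)) hε1pos (by positivity)
  refine ⟨K, hK, fun A X hA hX hXb hS => ?_⟩
  obtain ⟨q, Y, S, E, e, hYne, hYlow, hYA, hEcard, hSp, hSδ, hinj, hq0, heE, hEp, hmem⟩ := hS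
  have hN1 : (1 : ℝ) ≤ A.card := by exact_mod_cast hA.card_pos
  have hN0 : (0 : ℝ) < A.card := by linarith
  have hX1 : (1 : ℝ) ≤ X.card := by exact_mod_cast hX.card_pos
  have hlogN : 0 ≤ Real.log A.card := Real.log_nonneg hN1
  have hY1 : (1 : ℝ) ≤ Y.card := by exact_mod_cast hYne.card_pos
  have hYN : (Y.card : ℝ) ≤ A.card := by exact_mod_cast hYA
  have key : ∀ j : ℕ, j ≤ k → (X.card : ℝ) * (A.card : ℝ) ^ ((j : ℝ) - j * ε2) ≤
      numX X A j := by
    intro j
    induction j with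
    | zero =>
      intro _
      have h0 : (A.card : ℝ) ^ (((0 : ℕ) : ℝ) - ((0 : ℕ) : ℝ) * ε2) = 1 := by simp
      rw [h0, mul_one]
      exact card_le_numX X A 0 hA
    | succ j ih =>
      intro hj
      have ih' := ih (by omega)
      obtain ⟨Z, hZ⟩ : ∃ Z : Finset ℤ, Z = (X ×ˢ Fintype.piFinset (fun _ : Fin j => A)).image
        (fun f : ℤ × (Fin j → ℤ) => f.1 + ∑ i, f.2 i) := ⟨_, rfl⟩
      have hZn : numX X A j = (Z.card : ℝ) := by
        rw [hZ]
        rfl
      rw [hZn] at ih'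
      have hZ0 : (1 : ℝ) ≤ Z.card := by
        rw [← hZn]
        exact hX1.trans (card_le_numX X A j hA)
      have hZne : Z.Nonempty := by
        rw [← Finset.card_pos]
        have : (0 : ℝ) < Z.card := by linarith
        exact_mod_cast this
      have hZle : (Z.card : ℝ) ≤ (A.card : ℝ) ^ (b + j) := by
        have h3 : Z.card ≤ X.card * A.card ^ j := by
          rw [hZ]
          refine Finset.card_image_le.trans ?_
          rw [Finset.card_product, Fintype.card_piFinset]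
          simp
        have h4 : (Z.card : ℝ) ≤ X.card * (A.card : ℝ) ^ j := by exact_mod_cast h3
        rw [Real.rpow_add hN0, Real.rpow_natCast]
        exact h4.trans (mul_le_mul_of_nonneg_right hXb (by positivity))
      have hjk : (j : ℝ) + 1 ≤ (k : ℝ) := by exact_mod_cast hj
      have hj0 : (0 : ℝ) ≤ (j : ℝ) := by positivity
      have hlogZ : Real.log Z.card ≤ (b + j) * Real.log A.card := by
        have h3 := Real.log_le_log (by linarith) hZle
        rwa [Real.log_rpow hN0] at h3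
      have hlogY : Real.log Y.card ≤ Real.log A.card := Real.log_le_log (by linarith) hYN
      have hZY : (Z.card : ℝ) * Y.card ≤ (A.card : ℝ) ^ (b + j + 1) := by
        rw [Real.rpow_add hN0 (b + j) 1, Real.rpow_one]
        exact mul_le_mul hZle hYN (by linarith) (Real.rpow_nonneg hN0.le _)
      have hZY0 : (0 : ℝ) < (Z.card : ℝ) * Y.card := by positivity
      have hlog : δ / ((k : ℝ) + b + 1) * Real.log ((Z.card : ℝ) * Y.card) ≤ (S.card : ℝ) := by
        refine le_trans ?_ hSδ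
        rw [Real.log_mul (by linarith) (by linarith), div_mul_eq_mul_div, div_le_iff₀ hkb1]
        have h3 : Real.log Z.card + Real.log Y.card ≤ Real.log A.card * ((k : ℝ) + b + 1) := by
          nlinarith
        calc δ * (Real.log Z.card + Real.log Y.card) ≤ δ * (Real.log A.card * ((k : ℝ) + b + 1)) :=
              mul_le_mul_of_nonneg_left h3 hδ.le
          _ = δ * Real.log A.card * ((k : ℝ) + b + 1) := by ring
      have hc := hcore q Z Y A S E e hZne hYne hSp hlog hinj hq0 heE hEp hmem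
      -- the sumset
      have hsub : Finset.image₂ (fun x a => x + a) Z A ⊆
          (X ×ˢ Fintype.piFinset (fun _ : Fin (j + 1) => A)).image
            (fun f : ℤ × (Fin (j + 1) → ℤ) => f.1 + ∑ i, f.2 i) := by
        intro w hw
        rw [Finset.mem_image₂] at hw
        obtain ⟨z, hz, a, ha, rfl⟩ := hw
        rw [hZ, Finset.mem_image] at hz
        obtain ⟨⟨x, f⟩, hf, rfl⟩ := hz
        rw [Finset.mem_product, Fintype.mem_piFinset] at hf
        rw [Finset.mem_image]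
        refine ⟨(x, Fin.snoc (α := fun _ => ℤ) f a), ?_, ?_⟩
        · rw [Finset.mem_product, Fintype.mem_piFinset]
          refine ⟨hf.1, ?_⟩
          intro i
          refine Fin.lastCases ?_ (fun i => ?_) i
          · simp only [Fin.snoc_last]
            exact ha
          · simp only [Fin.snoc_castSucc]
            exact hf.2 i
        · simp only [Fin.sum_univ_castSucc, Fin.snoc_castSucc, Fin.snoc_last]
          ring
      have hcard : ((Finset.image₂ (fun x a => x + a) Z A).card : ℝ) ≤ numX X A (j + 1) := by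
        unfold numX
        exact_mod_cast Finset.card_le_card hsub
      obtain ⟨W, hW⟩ : ∃ W : ℝ, W = numX X A (j + 1) := ⟨_, rfl⟩
      have hW0 : 0 ≤ W := by
        rw [hW]
        exact numX_nonneg _ _ _
      rw [← hW] at hcard
      rw [← hW]
      have hEW : ((Z.card : ℝ) * Y.card) ^ (1 - ε1) ≤ (A.card : ℝ) ^ ε1 * W := by
        refine hc.trans ?_
        exact mul_le_mul hEcard hcard (by positivity) (Real.rpow_nonneg hN0.le _)
      -- `(|Z||Y|)^(1-ε1) = |Z||Y| (|Z||Y|)^(-ε1)`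
      have h5 : ((Z.card : ℝ) * Y.card) * (A.card : ℝ) ^ (-(ε1 * (b + j + 1))) ≤
          ((Z.card : ℝ) * Y.card) ^ (1 - ε1) := by
        rw [sub_eq_add_neg, Real.rpow_add hZY0, Real.rpow_one]
        refine mul_le_mul_of_nonneg_left ?_ hZY0.le
        rw [Real.rpow_neg hN0.le, Real.rpow_neg hZY0.le]
        refine inv_anti₀ (Real.rpow_pos_of_pos hZY0 _) ?_
        rw [mul_comm ε1 (b + j + 1), Real.rpow_mul hN0.le]
        exact Real.rpow_le_rpow hZY0.le hZY hε1pos.le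
      have h6 : ((X.card : ℝ) * (A.card : ℝ) ^ ((j : ℝ) - j * ε2)) * (A.card : ℝ) ^ (1 - ε1) *
          (A.card : ℝ) ^ (-(ε1 * (b + j + 1))) ≤ (A.card : ℝ) ^ ε1 * W := by
        refine le_trans ?_ (h5.trans hEW)
        refine mul_le_mul_of_nonneg_right ?_ (Real.rpow_nonneg hN0.le _)
        exact mul_le_mul ih' hYlow (Real.rpow_nonneg hN0.le _) (by linarith)
      have h7 : (A.card : ℝ) ^ ε1 * ((X.card : ℝ) *
          (A.card : ℝ) ^ (((j + 1 : ℕ) : ℝ) - ((j + 1 : ℕ) : ℝ) * ε2)) ≤ (A.card : ℝ) ^ ε1 * W := by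
        refine le_trans ?_ h6
        have h8 : (A.card : ℝ) ^ ε1 * ((X.card : ℝ) *
            (A.card : ℝ) ^ (((j + 1 : ℕ) : ℝ) - ((j + 1 : ℕ) : ℝ) * ε2)) =
            (X.card : ℝ) * (A.card : ℝ) ^ (ε1 + (((j + 1 : ℕ) : ℝ) - ((j + 1 : ℕ) : ℝ) * ε2)) := by
          rw [Real.rpow_add hN0]
          ring
        have h9 : ((X.card : ℝ) * (A.card : ℝ) ^ ((j : ℝ) - j * ε2)) * (A.card : ℝ) ^ (1 - ε1) *
            (A.card : ℝ) ^ (-(ε1 * (b + j + 1))) =
            (X.card : ℝ) * (A.card : ℝ) ^ ((j : ℝ) - j * ε2 + (1 - ε1) + -(ε1 * (b + j + 1))) := by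
          rw [Real.rpow_add hN0, Real.rpow_add hN0]
          ring
        rw [h8, h9]
        refine mul_le_mul_of_nonneg_left ?_ (by linarith)
        apply Real.rpow_le_rpow_of_exponent_le hN1
        push_cast
        have h2 : ε1 * ((j : ℝ) + b + 3) ≤ ε2 := by nlinarith
        nlinarith
      exact le_of_mul_le_mul_left h7 (Real.rpow_pos_of_pos hN0 _)
  refine le_trans ?_ (key k le_rfl)
  refine mul_le_mul_of_nonneg_left ?_ (by linarith)
  apply Real.rpow_le_rpow_of_exponent_le hN1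
  linarith

theorem edge_sumsX (k : ℕ) (ε κ σ b : ℝ) (hε : 0 < ε) (hκ : 0 < κ) (hσ : 0 < σ) (hb : 0 ≤ b) :
    ∃ c : ℝ, 0 < c ∧ ∀ (A X : Finset ℤ) (T : Finset ℕ), A.Nonempty → (0 : ℤ) ∉ A →
      X.Nonempty → (X.card : ℝ) ≤ (A.card : ℝ) ^ b →
      (∀ p ∈ T, p.Prime) → σ * Real.log (A.card : ℝ) ≤ (T.card : ℝ) →
      (∀ p ∈ T, κ * (A.card : ℝ) ≤ ((A.filter (fun b => (p : ℤ) * b ∈ A)).card : ℝ)) →
      c * X.card * (A.card : ℝ) ^ ((k : ℝ) - ε) ≤ numX X A k := by
  obtain ⟨ε1, hε1, hgrow⟩ := growthX k b ε hb hε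
  obtain ⟨c3, hc3⟩ : ∃ c3 : ℝ, c3 = min (σ / 2) (ε1 / 10) := ⟨_, rfl⟩
  have hc3pos : 0 < c3 := by
    rw [hc3]
    exact lt_min (by linarith) (by linarith)
  have hc3a : c3 ≤ σ / 2 := by rw [hc3]; exact min_le_left _ _
  have hc3b : c3 ≤ ε1 / 10 := by rw [hc3]; exact min_le_right _ _
  obtain ⟨δ', hδ', hstr⟩ := struct_of_edges (min κ 1) ε1 c3 (lt_min hκ one_pos)
    (min_le_right _ _) hε1 hc3pos hc3b
  obtain ⟨K, hK, hK2⟩ := hgrow δ' hδ'
  obtain ⟨N0, hN0⟩ := hstr K hK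
  obtain ⟨N1, hN1⟩ : ∃ N1 : ℝ, N1 = max N0 (1 / c3) := ⟨_, rfl⟩
  refine ⟨min 1 (Real.exp (-(k * N1))), lt_min one_pos (Real.exp_pos _), ?_⟩
  intro A X T hA h0 hX hXb hTp hTc hedge
  have hA1 : (1 : ℝ) ≤ A.card := by exact_mod_cast hA.card_pos
  have hA0 : (0 : ℝ) < A.card := by linarith
  have hX1 : (1 : ℝ) ≤ X.card := by exact_mod_cast hX.card_pos
  have hpowpos : (0 : ℝ) < (A.card : ℝ) ^ ((k : ℝ) - ε) := Real.rpow_pos_of_pos hA0 _
  rcases le_total N1 (Real.log (A.card : ℝ)) with h | h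
  · have hL1 : 1 / c3 ≤ Real.log (A.card : ℝ) := (le_trans (by rw [hN1]; exact le_max_right _ _) h)
    have hL2 : N0 ≤ Real.log (A.card : ℝ) := (le_trans (by rw [hN1]; exact le_max_left _ _) h)
    have hL3 : 1 ≤ c3 * Real.log (A.card : ℝ) := by
      rw [div_le_iff₀ hc3pos] at hL1
      linarith
    have hL4 : 0 < Real.log (A.card : ℝ) := by
      have : 0 < 1 / c3 := by positivity
      linarith
    have hn : ⌈c3 * Real.log (A.card : ℝ)⌉₊ ≤ T.card := by
      rw [Nat.ceil_le]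
      have h1 : c3 * Real.log (A.card : ℝ) ≤ σ / 2 * Real.log (A.card : ℝ) :=
        mul_le_mul_of_nonneg_right hc3a hL4.le
      have h2 : 0 < σ * Real.log (A.card : ℝ) := by positivity
      linarith
    obtain ⟨T', hT', hT'c⟩ := Finset.exists_subset_card_eq hn
    have hup : (T'.card : ℝ) ≤ 2 * c3 * Real.log (A.card : ℝ) := by
      rw [hT'c]
      have := (Nat.ceil_lt_add_one (by linarith : 0 ≤ c3 * Real.log (A.card : ℝ))).le
      linarith
    have hlow : c3 * Real.log (A.card : ℝ) ≤ (T'.card : ℝ) := by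
      rw [hT'c]
      exact Nat.le_ceil _
    have hS := hN0 A T' h0 hA hL2 (fun p hp => hTp p (hT' hp)) hlow hup (fun p hp =>
      le_trans (mul_le_mul_of_nonneg_right (min_le_left _ _) hA0.le) (hedge p (hT' hp)))
    refine le_trans ?_ (hK2 A X hA hX hXb hS)
    refine mul_le_mul_of_nonneg_right ?_ hpowpos.le
    have h1 : min 1 (Real.exp (-(k * N1))) ≤ 1 := min_le_left _ _
    calc min 1 (Real.exp (-(k * N1))) * (X.card : ℝ) ≤ 1 * X.card :=
          mul_le_mul_of_nonneg_right h1 (by linarith)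
      _ = X.card := one_mul _
  · refine le_trans ?_ (card_le_numX X A k hA)
    have h2 : (A.card : ℝ) ^ ((k : ℝ) - ε) ≤ Real.exp (k * N1) := by
      calc (A.card : ℝ) ^ ((k : ℝ) - ε) ≤ (A.card : ℝ) ^ (k : ℝ) :=
            Real.rpow_le_rpow_of_exponent_le hA1 (by linarith)
        _ = Real.exp (Real.log (A.card : ℝ) * k) := Real.rpow_def_of_pos hA0 _
        _ ≤ Real.exp (k * N1) := by
            apply Real.exp_le_exp.2
            rw [mul_comm]
            exact mul_le_mul_of_nonneg_left h (Nat.cast_nonneg _)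
    have h3 : min 1 (Real.exp (-(k * N1))) * (A.card : ℝ) ^ ((k : ℝ) - ε) ≤ 1 := by
      calc min 1 (Real.exp (-(k * N1))) * (A.card : ℝ) ^ ((k : ℝ) - ε)
          ≤ Real.exp (-(k * N1)) * Real.exp (k * N1) :=
            mul_le_mul (min_le_right _ _) h2 hpowpos.le (Real.exp_pos _).le
        _ = 1 := by rw [← Real.exp_add, neg_add_cancel, Real.exp_zero]
    calc min 1 (Real.exp (-(k * N1))) * (X.card : ℝ) * (A.card : ℝ) ^ ((k : ℝ) - ε)
        = (min 1 (Real.exp (-(k * N1))) * (A.card : ℝ) ^ ((k : ℝ) - ε)) * X.card := by ring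
      _ ≤ 1 * X.card := mul_le_mul_of_nonneg_right h3 (by linarith)
      _ = X.card := one_mul _

/-- **Theorem E** for `X + kA`, with a large subset `B` of `A` -/
theorem acting_primes (k : ℕ) (ε κ σ b : ℝ) (hε : 0 < ε) (hκ : 0 < κ) (hσ : 0 < σ) :
    ∃ c : ℝ, 0 < c ∧ ∀ A B X : Finset ℤ, A.Nonempty → B ⊆ A → (0 : ℤ) ∉ B →
      (A.card : ℝ) ^ (1 - c) ≤ (B.card : ℝ) → X.Nonempty → (X.card : ℝ) ≤ (A.card : ℝ) ^ b →
      ∀ T : Finset ℕ, (∀ p ∈ T, p.Prime) → σ * Real.log (A.card : ℝ) ≤ (T.card : ℝ) →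
      (∀ p ∈ T, κ * (B.card : ℝ) ≤ ((B.filter (fun b => (p : ℤ) * b ∈ B)).card : ℝ)) →
      c * X.card * (A.card : ℝ) ^ ((k : ℝ) - ε) ≤ numX X A k := by
  by_cases hεk : (k : ℝ) ≤ ε
  · refine ⟨1, one_pos, ?_⟩
    intro A B X hA _ _ _ hX _ T _ _ _
    refine le_trans ?_ (card_le_numX X A k hA)
    have hA1 : (1 : ℝ) ≤ A.card := by exact_mod_cast hA.card_pos
    have h1 : (A.card : ℝ) ^ ((k : ℝ) - ε) ≤ 1 :=
      Real.rpow_le_one_of_one_le_of_nonpos hA1 (by linarith)
    have hX0 : (0 : ℝ) ≤ X.card := by positivity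
    rw [one_mul]
    exact mul_le_of_le_one_right hX0 h1
  push Not at hεk
  have hk0 : (0 : ℝ) < k := by linarith
  obtain ⟨c2, hc2, hE2⟩ := edge_sumsX k (ε / 2) κ σ (2 * max b 0) (by positivity) hκ hσ
    (by positivity)
  obtain ⟨c, hcdef⟩ : ∃ c : ℝ, c = min c2 (min (1 / 2) (ε / (2 * k))) := ⟨_, rfl⟩
  have hcpos : 0 < c := by rw [hcdef]; positivity
  have hcb : c ≤ c2 := by rw [hcdef]; exact min_le_left _ _
  have hcd : c ≤ 1 / 2 := by rw [hcdef]; exact (min_le_right _ _).trans (min_le_left _ _)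
  have hce : c ≤ ε / (2 * k) := by rw [hcdef]; exact (min_le_right _ _).trans (min_le_right _ _)
  refine ⟨c, hcpos, ?_⟩
  intro A B X hA hBA hB0 hcard hX hXb T hTp hTc hedge
  have hA1 : (1 : ℝ) ≤ A.card := by exact_mod_cast hA.card_pos
  have hA0 : (0 : ℝ) < A.card := by linarith
  have hBpos : (0 : ℝ) < B.card := lt_of_lt_of_le (Real.rpow_pos_of_pos hA0 _) hcard
  have hBne : B.Nonempty := by rw [← card_pos]; exact_mod_cast hBpos
  have hB1 : (1 : ℝ) ≤ B.card := by exact_mod_cast hBne.card_pos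
  have hBAc : (B.card : ℝ) ≤ A.card := by exact_mod_cast card_le_card hBA
  have hLB : Real.log (B.card : ℝ) ≤ Real.log (A.card : ℝ) := Real.log_le_log hBpos hBAc
  have hXB : (X.card : ℝ) ≤ (B.card : ℝ) ^ (2 * max b 0) := by
    refine hXb.trans ?_
    have h1 : (A.card : ℝ) ^ b ≤ (A.card : ℝ) ^ ((1 - c) * (2 * max b 0)) := by
      apply Real.rpow_le_rpow_of_exponent_le hA1
      have h2 : b ≤ max b 0 := le_max_left _ _
      have h3 : 0 ≤ max b 0 := le_max_right _ _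
      nlinarith
    refine h1.trans ?_
    rw [Real.rpow_mul hA0.le]
    exact Real.rpow_le_rpow (Real.rpow_nonneg hA0.le _) hcard (by positivity)
  have hkey := hE2 B X T hBne hB0 hX hXB hTp ((mul_le_mul_of_nonneg_left hLB hσ.le).trans hTc)
    hedge
  have hsub : numX X B k ≤ numX X A k := by
    unfold numX
    have h1 : ((X ×ˢ Fintype.piFinset (fun _ : Fin k => B)).image
        (fun f : ℤ × (Fin k → ℤ) => f.1 + ∑ i, f.2 i)) ⊆
        ((X ×ˢ Fintype.piFinset (fun _ : Fin k => A)).image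
        (fun f : ℤ × (Fin k → ℤ) => f.1 + ∑ i, f.2 i)) := by
      apply image_subset_image
      intro f hf
      rw [mem_product, Fintype.mem_piFinset] at hf ⊢
      exact ⟨hf.1, fun i => hBA (hf.2 i)⟩
    exact_mod_cast card_le_card h1
  refine le_trans ?_ (hkey.trans hsub)
  have h1 : (A.card : ℝ) ^ ((k : ℝ) - ε) ≤ (B.card : ℝ) ^ ((k : ℝ) - ε / 2) := by
    have h2 : ((A.card : ℝ) ^ (1 - c)) ^ ((k : ℝ) - ε / 2) ≤
        (B.card : ℝ) ^ ((k : ℝ) - ε / 2) :=
      Real.rpow_le_rpow (Real.rpow_nonneg hA0.le _) hcard (by linarith)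
    refine le_trans ?_ h2
    rw [← Real.rpow_mul hA0.le]
    apply Real.rpow_le_rpow_of_exponent_le hA1
    have h3 : c * k ≤ ε / 2 := by
      have := mul_le_mul_of_nonneg_right hce hk0.le
      have h4 : ε / (2 * k) * k = ε / 2 := by field_simp
      linarith
    have h5 : c * (ε / 2) ≥ 0 := by positivity
    nlinarith
  have hX0 : (0 : ℝ) ≤ X.card := by positivity
  exact mul_le_mul (mul_le_mul_of_nonneg_right hcb hX0) h1 (Real.rpow_nonneg hA0.le _)
    (by positivity)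

end Pool.Agent.Helper79.EM
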