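import Pool.Agent.Helper79.EM.Edge
import Pool.Agent.Helper80.DR.ChooseSum
import Pool.Agent.Helper80.DR.Fibres

set_option autoImplicit false

/-!
# EM-3 StructE: sets A with |A ∩ pA| ≥ κ|A| for many primes p have the structure `Struct`
-/

namespace Pool.Agent.Helper79.EM

open Finset Pool.Agent.Helper80.DR

private theorem pow_le_exp (C b : ℝ) (K : ℕ) (hb : 0 < b) :
    ∃ T0 : ℝ, ∀ x : ℝ, T0 ≤ x → C * x ^ K ≤ Real.exp (b * x) := by
  have h := isLittleO_pow_exp_pos_mul_atTop K hb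
  have hc : (0 : ℝ) < 1 / (|C| + 1) := by positivity
  have h2 := h.bound hc
  rw [Filter.eventually_atTop] at h2
  obtain ⟨a, ha⟩ := h2
  refine ⟨max a 0, fun x hx => ?_⟩
  have hx0 : 0 ≤ x := (le_max_right _ _).trans hx
  have h3 := ha x ((le_max_left _ _).trans hx)
  rw [Real.norm_of_nonneg (pow_nonneg hx0 K), Real.norm_of_nonneg (Real.exp_pos _).le] at h3
  have h4 : (|C| + 1) * x ^ K ≤ Real.exp (b * x) := by
    rw [one_div, inv_mul_eq_div, le_div_iff₀ (by positivity)] at h3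
    linarith
  have h5 : C * x ^ K ≤ (|C| + 1) * x ^ K := by
    apply mul_le_mul_of_nonneg_right _ (pow_nonneg hx0 K)
    have := le_abs_self C
    linarith
  exact h5.trans h4

private theorem finishE (A B1 : Finset ℤ) (K : ℕ) (ε δ' : ℝ) (T P S : Finset ℕ)
    (hTp : ∀ p ∈ T, p.Prime) (hP : P ⊆ T) (hS : S ⊆ P) (q : Fin K → ℤ)
    (hB1A : B1 ⊆ A) (hB1 : ∀ b ∈ B1, ∀ i, q i * b ∈ A)
    (hinj : ∀ p ∈ P, Function.Injective (fun i => (q i : ZMod p)))
    (hnz : ∀ p ∈ P, ∀ i, (q i : ZMod p) ≠ 0)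
    (Y : Finset ℤ) (hYne : Y.Nonempty) (hYB : Y.card ≤ B1.card)
    (hYbig : (A.card : ℝ) ^ (1 - ε) ≤ (Y.card : ℝ))
    (hE : (2 : ℝ) ^ T.card ≤ (A.card : ℝ) ^ ε)
    (hSbig : δ' * Real.log (A.card : ℝ) ≤ (S.card : ℝ))
    (hfib : ∀ y ∈ Y, ∀ H ⊆ S, ∃ D ⊆ P, D ∩ S = H ∧ (∏ p ∈ D, (p : ℤ)) * y ∈ B1) :
    Struct A K ε δ' := by
  classical
  choose! D hD using hfib
  refine ⟨q, Y, S, (P \ S).powerset.image (fun D => ∏ p ∈ D, p),
    fun H y => ∏ p ∈ D y H \ S, p, hYne, hYbig, ?_, ?_, ?_, hSbig, ?_, ?_, ?_, ?_, ?_⟩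
  · exact hYB.trans (Finset.card_le_card hB1A)
  · refine le_trans ?_ hE
    have h1 : ((P \ S).powerset.image (fun D => ∏ p ∈ D, p)).card ≤ 2 ^ T.card := by
      refine Finset.card_image_le.trans ?_
      rw [Finset.card_powerset]
      exact Nat.pow_le_pow_right (by norm_num)
        (Finset.card_le_card (Finset.sdiff_subset.trans hP))
    exact_mod_cast h1
  · exact fun p hp => hTp p (hP (hS hp))
  · exact fun p hp => hinj p (hS hp)
  · exact fun p hp i => hnz p (hS hp) i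
  · intro H hH y hy
    rw [Finset.mem_image]
    refine ⟨D y H \ S, ?_, rfl⟩
    rw [Finset.mem_powerset]
    exact Finset.sdiff_subset_sdiff (hD y hy H hH).1 (Finset.Subset.refl _)
  · intro d hd p hp hpd
    rw [Finset.mem_image] at hd
    obtain ⟨D', hD', rfl⟩ := hd
    rw [Finset.mem_powerset] at hD'
    have hpp : p.Prime := hTp p (hP (hS hp))
    obtain ⟨r, hr, hpr⟩ := (Prime.dvd_finsetProd_iff hpp.prime _).1 hpd
    have hr' := Finset.mem_sdiff.1 (hD' hr)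
    have hrp : r.Prime := hTp r (hP hr'.1)
    have : p = r := (Nat.prime_dvd_prime_iff_eq hpp hrp).1 hpr
    exact hr'.2 (this ▸ hp)
  · intro i H hH y hy
    obtain ⟨h1, h2, h3⟩ := hD y hy H hH
    have h4 := hB1 _ h3 i
    have h5 : (∏ p ∈ D y H, (p : ℤ)) = (∏ p ∈ H, (p : ℤ)) * ((∏ p ∈ D y H \ S, p : ℕ) : ℤ) := by
      have h7 := Finset.prod_inter_mul_prod_sdiff (D y H) S (fun p => (p : ℤ))
      rw [h2] at h7
      push_cast
      exact h7.symm
    rw [h5] at h4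
    have h6 : q i * (∏ p ∈ H, (p : ℤ)) * ((∏ p ∈ D y H \ S, p : ℕ) : ℤ) * y
        = q i * ((∏ p ∈ H, (p : ℤ)) * ((∏ p ∈ D y H \ S, p : ℕ) : ℤ) * y) := by
      ring
    show q i * (∏ p ∈ H, (p : ℤ)) * ((∏ p ∈ D y H \ S, p : ℕ) : ℤ) * y ∈ A
    rw [h6]
    exact h4

/-- [EM-3] -/
theorem struct_of_edges (κ ε c3 : ℝ) (hκ : 0 < κ) (hκ1 : κ ≤ 1) (hε : 0 < ε)
    (hc3 : 0 < c3) (hc3ε : c3 ≤ ε / 10) :
    ∃ δ' : ℝ, 0 < δ' ∧ ∀ K : ℕ, 1 ≤ K → ∃ N0 : ℝ,
      ∀ (A : Finset ℤ) (T : Finset ℕ), (0 : ℤ) ∉ A → A.Nonempty →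
      N0 ≤ Real.log (A.card : ℝ) → (∀ p ∈ T, p.Prime) →
      c3 * Real.log (A.card : ℝ) ≤ (T.card : ℝ) →
      (T.card : ℝ) ≤ 2 * c3 * Real.log (A.card : ℝ) →
      (∀ p ∈ T, κ * (A.card : ℝ) ≤ ((A.filter (fun b => (p : ℤ) * b ∈ A)).card : ℝ)) →
      Struct A K ε δ' := by
  classical
  obtain ⟨l2, hl2⟩ : ∃ l2 : ℝ, l2 = Real.log 2 := ⟨_, rfl⟩
  have hl2a : 0.69 < l2 := by rw [hl2]; have := Real.log_two_gt_d9; linarith
  have hl2b : l2 < 0.7 := by rw [hl2]; have := Real.log_two_lt_d9; linarith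
  have hl20 : 0 < l2 := by linarith
  obtain ⟨ρ, hρ⟩ : ∃ ρ : ℝ, ρ = κ / 8 * l2 := ⟨_, rfl⟩
  have hρ0 : 0 < ρ := by rw [hρ]; positivity
  obtain ⟨κ6, hκ6, hκ6', hcs6⟩ := choose_sum (ρ / 4) (by positivity)
  refine ⟨κ6 * c3, by positivity, ?_⟩
  intro K hK
  obtain ⟨T2, hT2⟩ := pow_le_exp (32 / κ) (3 / 4 * ρ) K (by positivity)
  obtain ⟨T3, hT3⟩ := pow_le_exp (8 / κ) 1 K one_pos
  refine ⟨max (max T2 T3) (8 * (K + 2) / κ) / c3, ?_⟩
  intro A T h0 hne hL hTp htl htu hedge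
  obtain ⟨N, hN⟩ : ∃ N : ℝ, N = (A.card : ℝ) := ⟨_, rfl⟩
  obtain ⟨L, hLd⟩ : ∃ L : ℝ, L = Real.log N := ⟨_, rfl⟩
  obtain ⟨t, ht⟩ : ∃ t : ℝ, t = (T.card : ℝ) := ⟨_, rfl⟩
  have hN0 : 0 < N := by
    rw [hN]
    exact_mod_cast hne.card_pos
  rw [← hN, ← hLd] at hL htl htu
  rw [← ht] at htl htu
  have hNexp : N = Real.exp L := by rw [hLd, Real.exp_log hN0]
  have hbig : max (max T2 T3) (8 * (K + 2) / κ) ≤ t := by
    rw [div_le_iff₀ hc3] at hL
    linarith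
  have htT2 : T2 ≤ t := le_trans (le_trans (le_max_left _ _) (le_max_left _ _)) hbig
  have htT3 : T3 ≤ t := le_trans (le_trans (le_max_right _ _) (le_max_left _ _)) hbig
  have htκ : 8 * ((K : ℝ) + 2) ≤ κ * t := by
    have h := le_trans (le_max_right _ _) hbig
    rw [div_le_iff₀ hκ] at h
    linarith
  have hKR : (1 : ℝ) ≤ (K : ℝ) := by exact_mod_cast hK
  have ht0 : 0 < t := by
    by_contra hneg
    have h1 : κ * t ≤ 0 := mul_nonpos_of_nonneg_of_nonpos hκ.le (not_lt.1 hneg)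
    linarith
  have hL0 : 0 < L := by
    by_contra hneg
    have h1 : 2 * c3 * L ≤ 0 := mul_nonpos_of_nonneg_of_nonpos (by positivity) (not_lt.1 hneg)
    linarith
  have hpow2 : ∀ n : ℕ, (2 : ℝ) ^ n = Real.exp (l2 * n) := by
    intro n
    rw [hl2, mul_comm, Real.exp_nat_mul, Real.exp_log (by norm_num)]
  -- the size of rich classes
  obtain ⟨m, hm⟩ : ∃ m : ℕ, m = ⌊κ / 8 * t⌋₊ := ⟨_, rfl⟩
  have hm1 : (m : ℝ) ≤ κ / 8 * t := by rw [hm]; exact Nat.floor_le (by positivity)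
  have hm2 : κ / 8 * t < m + 1 := by rw [hm]; exact Nat.lt_floor_add_one _
  have hlogM : Nat.log 2 (2 * 2 ^ m) = m + 1 := by
    rw [← pow_succ', Nat.log_pow (by norm_num)]
  obtain ⟨σ, J, hJT, hJK, π, hπT, hJπ, B1, hB1A, hB1ne, hB1c, hB1J, hcls⟩ :=
    exists_common A T hTp h0 hne κ hκ K (2 ^ m) hK hedge (by
      rw [hlogM, ← ht]
      push_cast
      linarith)
  rw [← hN, ← ht] at hB1c
  obtain ⟨P, hP⟩ : ∃ P : Finset ℕ, P = T.filter (fun q => π < q) := ⟨_, rfl⟩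
  rw [← hP] at hcls
  have hPT : P ⊆ T := by rw [hP]; exact Finset.filter_subset _ _
  have hPp : ∀ p ∈ P, p.Prime := fun p hp => hTp p (hPT hp)
  have h0B1 : (0 : ℤ) ∉ B1 := fun h => h0 (hB1A h)
  -- the number of classes
  have hI : ((B1.image (low σ P)).card : ℝ) ≤ 2 * N * Real.exp (-(ρ * t)) := by
    have h1 : (2 : ℝ) ^ m * ((B1.image (low σ P)).card : ℝ) ≤ N := by
      rw [hN]
      exact_mod_cast hcls
    have h2 : Real.exp (ρ * t) / 2 ≤ (2 : ℝ) ^ m := by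
      rw [hpow2]
      have h3 : Real.exp (ρ * t) / 2 = Real.exp (ρ * t - l2) := by
        rw [Real.exp_sub, hl2, Real.exp_log (by norm_num)]
      rw [h3]
      apply Real.exp_le_exp.2
      rw [hρ]
      nlinarith
    have h3 : Real.exp (ρ * t) / 2 * ((B1.image (low σ P)).card : ℝ) ≤ N :=
      (mul_le_mul_of_nonneg_right h2 (Nat.cast_nonneg _)).trans h1
    rw [Real.exp_neg, ← div_eq_mul_inv, le_div_iff₀ (Real.exp_pos _)]
    linarith
  have htK : 0 < t ^ K := pow_pos ht0 K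
  have hB1big : κ / 4 * N / t ^ K ≤ (B1.card : ℝ) := by
    rw [div_le_iff₀ htK]
    linarith
  -- the threshold
  obtain ⟨θ, hθ⟩ : ∃ θ : ℕ, θ = ⌊Real.exp (ρ / 4 * t)⌋₊ + 1 := ⟨_, rfl⟩
  have hθ1 : Real.exp (ρ / 4 * t) < θ := by
    rw [hθ]
    push_cast
    exact Nat.lt_floor_add_one _
  have hθ2 : (θ : ℝ) ≤ 2 * Real.exp (ρ / 4 * t) := by
    rw [hθ]
    push_cast
    have h1 : (⌊Real.exp (ρ / 4 * t)⌋₊ : ℝ) ≤ Real.exp (ρ / 4 * t) :=
      Nat.floor_le (Real.exp_pos _).le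
    have h2 : (1 : ℝ) ≤ Real.exp (ρ / 4 * t) := Real.one_le_exp (by positivity)
    linarith
  have hcl : 2 * θ * (B1.image (low σ P)).card ≤ B1.card := by
    have h1 : (2 * θ * (B1.image (low σ P)).card : ℝ) ≤ (B1.card : ℝ) := by
      refine le_trans ?_ hB1big
      calc (2 * θ * (B1.image (low σ P)).card : ℝ)
          ≤ 2 * (2 * Real.exp (ρ / 4 * t)) * (2 * N * Real.exp (-(ρ * t))) := by
            apply mul_le_mul _ hI (Nat.cast_nonneg _) (by positivity)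
            linarith
        _ = 8 * N * (Real.exp (ρ / 4 * t) * Real.exp (-(ρ * t))) := by ring
        _ = 8 * N * Real.exp (-(3 / 4 * ρ * t)) := by
            rw [← Real.exp_add]
            congr 2
            ring
        _ = (κ / 4 * N / t ^ K) * ((32 / κ * t ^ K) * Real.exp (-(3 / 4 * ρ * t))) := by
            field_simp
            ring
        _ ≤ (κ / 4 * N / t ^ K) * 1 := by
            apply mul_le_mul_of_nonneg_left _ (by positivity)
            rw [Real.exp_neg, ← div_eq_mul_inv, div_le_one (Real.exp_pos _)]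
            exact hT2 t htT2
        _ = κ / 4 * N / t ^ K := mul_one _
    exact_mod_cast h1
  obtain ⟨s, hs⟩ : ∃ s : ℕ, s = ⌊κ6 * t⌋₊ + 1 := ⟨_, rfl⟩
  have hθs : ∑ j ∈ Finset.range s, P.card.choose j < θ := by
    have h1 : ∑ j ∈ Finset.range s, P.card.choose j ≤
        ∑ j ∈ Finset.range (⌊κ6 * t⌋₊ + 1), T.card.choose j := by
      rw [hs]
      exact Finset.sum_le_sum fun j _ => Nat.choose_le_choose j (Finset.card_le_card hPT)
    have h2 := hcs6 T.card ⌊κ6 * t⌋₊ (by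
      rw [← ht]
      exact Nat.floor_le (by positivity))
    rw [← ht] at h2
    have h3 : ((∑ j ∈ Finset.range s, P.card.choose j : ℕ) : ℝ) < (θ : ℝ) := by
      refine lt_of_le_of_lt (le_trans ?_ h2) hθ1
      exact_mod_cast h1
    exact_mod_cast h3
  obtain ⟨S, hSP, hSs, Y, hYne, hYB, hYc, hY⟩ := fibres σ P hPp B1 h0B1 hB1ne θ s hcl hθs
  have hεL : 5 * t ≤ ε * L := by
    have h1 : 2 * c3 * L ≤ 2 * (ε / 10) * L :=
      mul_le_mul_of_nonneg_right (by linarith) hL0.le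
    linarith
  refine finishE A B1 K ε (κ6 * c3) T P S hTp hPT hSP (fun i => ((J.orderEmbOfFin hJK i : ℕ) : ℤ))
    hB1A ?_ ?_ ?_ Y hYne hYB ?_ ?_ ?_ hY
  · intro b hb i
    exact hB1J b hb _ (Finset.orderEmbOfFin_mem J hJK i)
  · intro p hp i j hij
    have hlt : ∀ i, (J.orderEmbOfFin hJK i : ℕ) < p := by
      intro i
      have h1 := hJπ _ (Finset.orderEmbOfFin_mem J hJK i)
      rw [hP, Finset.mem_filter] at hp
      exact lt_of_le_of_lt h1 hp.2
    have h1 : (((J.orderEmbOfFin hJK i : ℕ) : ℤ) : ZMod p) =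
        (((J.orderEmbOfFin hJK j : ℕ) : ℤ) : ZMod p) := hij
    rw [Int.cast_natCast, Int.cast_natCast, ZMod.natCast_eq_natCast_iff', Nat.mod_eq_of_lt (hlt i),
      Nat.mod_eq_of_lt (hlt j)] at h1
    exact (J.orderEmbOfFin hJK).injective h1
  · intro p hp i h
    have h1 := hJπ _ (Finset.orderEmbOfFin_mem J hJK i)
    have h2 : π < p := by
      rw [hP, Finset.mem_filter] at hp
      exact hp.2
    have h3 : (((J.orderEmbOfFin hJK i : ℕ) : ℤ) : ZMod p) = 0 := h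
    rw [Int.cast_natCast, ZMod.natCast_eq_zero_iff] at h3
    have h4 := Nat.le_of_dvd (hTp _ (hJT (Finset.orderEmbOfFin_mem J hJK i))).pos h3
    omega
  · -- size of Y
    have h1 : (B1.card : ℝ) ≤ 2 * (4 : ℝ) ^ P.card * Y.card := by exact_mod_cast hYc
    have h2 : (4 : ℝ) ^ P.card ≤ Real.exp (1.4 * t) := by
      have h3 : (4 : ℝ) ^ P.card ≤ (4 : ℝ) ^ T.card :=
        pow_le_pow_right₀ (by norm_num) (Finset.card_le_card hPT)
      refine h3.trans ?_
      have h4 : (4 : ℝ) ^ T.card = Real.exp (2 * l2 * t) := by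
        rw [show (4 : ℝ) = 2 ^ 2 by norm_num, ← pow_mul, hpow2, ht]
        congr 1
        push_cast
        ring
      rw [h4]
      apply Real.exp_le_exp.2
      nlinarith
    have h3 : κ / 4 * N / t ^ K ≤ 2 * Real.exp (1.4 * t) * Y.card := by
      refine hB1big.trans (h1.trans ?_)
      apply mul_le_mul_of_nonneg_right _ (Nat.cast_nonneg _)
      linarith
    have h4 := hT3 t htT3
    rw [one_mul] at h4
    have h5 : N ≤ Real.exp (ε * L) * Y.card := by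
      have h6 : N ≤ (8 / κ * t ^ K) * Real.exp (1.4 * t) * Y.card := by
        rw [div_le_iff₀ htK] at h3
        have h7 : N = 4 / κ * (κ / 4 * N) := by field_simp
        rw [h7]
        calc 4 / κ * (κ / 4 * N) ≤ 4 / κ * (2 * Real.exp (1.4 * t) * Y.card * t ^ K) :=
              mul_le_mul_of_nonneg_left h3 (by positivity)
          _ = (8 / κ * t ^ K) * Real.exp (1.4 * t) * Y.card := by ring
      refine h6.trans ?_
      apply mul_le_mul_of_nonneg_right _ (Nat.cast_nonneg _)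
      calc (8 / κ * t ^ K) * Real.exp (1.4 * t) ≤ Real.exp t * Real.exp (1.4 * t) :=
            mul_le_mul_of_nonneg_right h4 (Real.exp_pos _).le
        _ = Real.exp (t + 1.4 * t) := (Real.exp_add _ _).symm
        _ ≤ Real.exp (ε * L) := Real.exp_le_exp.2 (by linarith)
    rw [← hN, Real.rpow_sub hN0, Real.rpow_one, div_le_iff₀ (Real.rpow_pos_of_pos hN0 _),
      Real.rpow_def_of_pos hN0, ← hLd, mul_comm L ε, mul_comm]
    exact h5
  · rw [hpow2, ← ht, ← hN, Real.rpow_def_of_pos hN0, ← hLd]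
    apply Real.exp_le_exp.2
    nlinarith
  · rw [← hN, ← hLd]
    have h1 : κ6 * t < s := by
      rw [hs]
      push_cast
      exact Nat.lt_floor_add_one _
    have h2 : (s : ℝ) ≤ S.card := by exact_mod_cast hSs
    have h3 : κ6 * (c3 * L) ≤ κ6 * t := mul_le_mul_of_nonneg_left htl hκ6.le
    linarith

end Pool.Agent.Helper79.EM
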